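import Mathlib

/-!
# Extension of invariant nonnegative subspaces for quaternion plus-matrices

Let `H` be a singular hermitian quaternion matrix.  We show that every `A`-invariant
`H`-nonnegative subspace of every `H`-plus-matrix `A` extends to an `A`-invariant maximal
`H`-nonnegative subspace if and only if `H` is semidefinite.  In particular the extension
property fails for every singular indefinite `H`, for instance for `diag(1, -1, 0)`.

Vectors of `ℍⁿ` are columns, and scalars act on the right, i.e. subspaces are submodules over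
the opposite ring of `ℍ[ℝ]`.
-/

open Quaternion Matrix

namespace Pool.Agent.Results.MP_7dcdb2_al.SemidefiniteCriterion

/-- The form `[x, y] = y^* H x` on column vectors over the real quaternions. -/
noncomputable def form {n : ℕ} (H : Matrix (Fin n) (Fin n) ℍ[ℝ]) (x y : Fin n → ℍ[ℝ]) : ℍ[ℝ] :=
  star y ⬝ᵥ (H *ᵥ x)

/-- `M` is `H`-nonnegative: `[x, x] ≥ 0` for all `x ∈ M` (for hermitian `H` the quaternion
`[x, x]` is real, so it is its own real part). -/
def IsNonneg {n : ℕ} (H : Matrix (Fin n) (Fin n) ℍ[ℝ])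
    (M : Submodule (ℍ[ℝ])ᵐᵒᵖ (Fin n → ℍ[ℝ])) : Prop :=
  ∀ x ∈ M, 0 ≤ (form H x x).re

/-- `A` is an `H`-plus-matrix: `[A x, A x] ≥ 0` whenever `[x, x] ≥ 0`. -/
def IsPlusMatrix {n : ℕ} (H A : Matrix (Fin n) (Fin n) ℍ[ℝ]) : Prop :=
  ∀ x, 0 ≤ (form H x x).re → 0 ≤ (form H (A *ᵥ x) (A *ᵥ x)).re

/-- `M` is `A`-invariant. -/
def IsInvariant {n : ℕ} (A : Matrix (Fin n) (Fin n) ℍ[ℝ])
    (M : Submodule (ℍ[ℝ])ᵐᵒᵖ (Fin n → ℍ[ℝ])) : Prop :=
  ∀ x ∈ M, A *ᵥ x ∈ M

/-- The diagonal matrix `I_p ⊕ (-I_q) ⊕ 0` of size `n`. -/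
noncomputable def signMatrix (n p q : ℕ) : Matrix (Fin n) (Fin n) ℍ[ℝ] :=
  Matrix.diagonal fun i : Fin n => if i.val < p then 1 else if i.val < p + q then -1 else 0

/-- `In₊(H) = p`, `In₋(H) = q`, `In₀(H) = ν`: the matrix `H` is congruent, via an invertible
matrix `S`, to `I_p ⊕ (-I_q) ⊕ 0_ν`. -/
def HasInertia {n : ℕ} (H : Matrix (Fin n) (Fin n) ℍ[ℝ]) (p q ν : ℕ) : Prop :=
  p + q + ν = n ∧ ∃ S : Matrix (Fin n) (Fin n) ℍ[ℝ], IsUnit S ∧ Sᴴ * H * S = signMatrix n p q

/-- The extension property for `H`: for every `H`-plus-matrix `A`, every `A`-invariant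
`H`-nonnegative subspace is contained in an `A`-invariant `H`-nonnegative subspace of
dimension `m`. -/
def ExtensionProperty {n : ℕ} (H : Matrix (Fin n) (Fin n) ℍ[ℝ]) (m : ℕ) : Prop :=
  ∀ A : Matrix (Fin n) (Fin n) ℍ[ℝ], IsPlusMatrix H A →
    ∀ M₀ : Submodule (ℍ[ℝ])ᵐᵒᵖ (Fin n → ℍ[ℝ]), IsInvariant A M₀ → IsNonneg H M₀ →
      ∃ M : Submodule (ℍ[ℝ])ᵐᵒᵖ (Fin n → ℍ[ℝ]),
        M₀ ≤ M ∧ IsInvariant A M ∧ IsNonneg H M ∧ Module.finrank (ℍ[ℝ])ᵐᵒᵖ M = m

variable {n : ℕ}

lemma form_mulVec (H S : Matrix (Fin n) (Fin n) ℍ[ℝ]) (x y : Fin n → ℍ[ℝ]) :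
    form H (S *ᵥ x) (S *ᵥ y) = form (Sᴴ * H * S) x y := by
  unfold form
  rw [Matrix.star_mulVec, ← Matrix.dotProduct_mulVec, Matrix.mulVec_mulVec, Matrix.mulVec_mulVec,
    Matrix.mul_assoc]

lemma re_sum {ι : Type*} (s : Finset ι) (f : ι → ℍ[ℝ]) :
    (∑ i ∈ s, f i).re = ∑ i ∈ s, (f i).re := by
  classical
  induction s using Finset.induction_on with
  | empty => simp
  | insert a s ha ih => rw [Finset.sum_insert ha, Finset.sum_insert ha, Quaternion.re_add, ih]

lemma form_sign_re (p q : ℕ) (x : Fin n → ℍ[ℝ]) :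
    (form (signMatrix n p q) x x).re =
      ∑ i : Fin n, (if i.val < p then (1 : ℝ) else if i.val < p + q then -1 else 0) *
        normSq (x i) := by
  unfold form signMatrix
  rw [dotProduct, re_sum]
  refine Finset.sum_congr rfl fun i _ => ?_
  rw [Matrix.mulVec_diagonal]
  have h : (star (x i) * x i).re = normSq (x i) := by
    rw [Quaternion.star_mul_self]; simp
  by_cases h1 : i.val < p
  · simp only [h1, if_true, Pi.star_apply, one_mul]; exact h
  · by_cases h2 : i.val < p + q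
    · simp only [h1, h2, if_true, if_false, Pi.star_apply, neg_mul, one_mul, mul_neg,
        Quaternion.re_neg, h]
    · simp [h1, h2]

/-- multiplication by a matrix, as a right-linear map -/
noncomputable def mulMap (T : Matrix (Fin n) (Fin n) ℍ[ℝ]) :
    (Fin n → ℍ[ℝ]) →ₗ[(ℍ[ℝ])ᵐᵒᵖ] (Fin n → ℍ[ℝ]) where
  toFun x := T *ᵥ x
  map_add' _ _ := Matrix.mulVec_add _ _ _
  map_smul' _ _ := Matrix.mulVec_smul _ _ _

/-- the coordinates in an index set -/
noncomputable def coordMap (P : Fin n → Prop) :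
    (Fin n → ℍ[ℝ]) →ₗ[(ℍ[ℝ])ᵐᵒᵖ] ({i // P i} → ℍ[ℝ]) where
  toFun x := fun i => x i
  map_add' _ _ := rfl
  map_smul' _ _ := rfl

lemma finrank_fun (ι : Type) [Fintype ι] :
    Module.finrank (ℍ[ℝ])ᵐᵒᵖ (ι → ℍ[ℝ]) = Fintype.card ι := by
  have e : ℍ[ℝ] ≃ₗ[(ℍ[ℝ])ᵐᵒᵖ] (ℍ[ℝ])ᵐᵒᵖ :=
    { toFun := MulOpposite.op
      invFun := MulOpposite.unop
      left_inv := fun _ => rfl
      right_inv := fun _ => rfl
      map_add' := fun _ _ => rfl
      map_smul' := fun _ _ => rfl }
  have e2 : (ι → ℍ[ℝ]) ≃ₗ[(ℍ[ℝ])ᵐᵒᵖ] (ι → (ℍ[ℝ])ᵐᵒᵖ) := LinearEquiv.piCongrRight fun _ => e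
  rw [e2.finrank_eq, Module.finrank_fintype_fun_eq_card]

instance : Module.Finite (ℍ[ℝ])ᵐᵒᵖ ℍ[ℝ] := by
  have e : (ℍ[ℝ])ᵐᵒᵖ ≃ₗ[(ℍ[ℝ])ᵐᵒᵖ] ℍ[ℝ] :=
    { toFun := MulOpposite.unop
      invFun := MulOpposite.op
      left_inv := fun _ => rfl
      right_inv := fun _ => rfl
      map_add' := fun _ _ => rfl
      map_smul' := fun _ _ => rfl }
  exact Module.Finite.equiv e

/-- A nonnegative subspace has dimension at most the number of nonnegative diagonal entries. -/
lemma finrank_le (H S T : Matrix (Fin n) (Fin n) ℍ[ℝ]) (hST : S * T = 1)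
    (p q : ℕ) (hS : Sᴴ * H * S = signMatrix n p q)
    (M : Submodule (ℍ[ℝ])ᵐᵒᵖ (Fin n → ℍ[ℝ])) (hM : IsNonneg H M) :
    Module.finrank (ℍ[ℝ])ᵐᵒᵖ M ≤ Fintype.card {i : Fin n // i.val < p ∨ p + q ≤ i.val} := by
  rw [← finrank_fun]
  let f : M →ₗ[(ℍ[ℝ])ᵐᵒᵖ] ({i : Fin n // i.val < p ∨ p + q ≤ i.val} → ℍ[ℝ]) :=
    (coordMap _) ∘ₗ (mulMap T) ∘ₗ M.subtype
  apply LinearMap.finrank_le_finrank_of_injective (f := f)
  rw [← LinearMap.ker_eq_bot, LinearMap.ker_eq_bot']
  rintro ⟨x, hx⟩ hfx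
  have h0 : ∀ i : Fin n, (i.val < p ∨ p + q ≤ i.val) → (T *ᵥ x) i = 0 := by
    intro i hi
    exact congrFun hfx ⟨i, hi⟩
  have hx' : x = S *ᵥ (T *ᵥ x) := by rw [Matrix.mulVec_mulVec, hST, Matrix.one_mulVec]
  have h1 := hM x hx
  rw [hx', form_mulVec, hS, form_sign_re] at h1
  have h2 : ∀ i ∈ (Finset.univ : Finset (Fin n)),
      (if i.val < p then (1 : ℝ) else if i.val < p + q then -1 else 0) *
        normSq ((T *ᵥ x) i) ≤ 0 := by
    intro i _
    by_cases hi : i.val < p ∨ p + q ≤ i.val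
    · rw [h0 i hi]; simp
    · push Not at hi
      have hnn : 0 ≤ normSq ((T *ᵥ x) i) := normSq_nonneg
      rw [if_neg (by omega), if_pos (by omega)]
      linarith
  have h3 := (Finset.sum_eq_zero_iff_of_nonpos h2).1
    (le_antisymm (Finset.sum_nonpos h2) h1)
  have h4 : T *ᵥ x = 0 := by
    ext1 i
    by_cases hi : i.val < p ∨ p + q ≤ i.val
    · exact h0 i hi
    · push Not at hi
      have := h3 i (Finset.mem_univ i)
      rw [if_neg (by omega), if_pos (by omega)] at this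
      have h5 : normSq ((T *ᵥ x) i) = 0 := by linarith
      simpa using h5
  apply Subtype.ext
  change x = 0
  rw [hx', h4, Matrix.mulVec_zero]

lemma card_nonneg (p q ν : ℕ) (h : p + q + ν = n) :
    Fintype.card {i : Fin n // i.val < p ∨ p + q ≤ i.val} = p + ν := by
  subst h
  have e : {i : Fin (p + q + ν) // i.val < p ∨ p + q ≤ i.val} ≃ Fin p ⊕ Fin ν :=
    { toFun := fun i => if h : i.1.val < p then Sum.inl ⟨i.1.val, h⟩
        else Sum.inr ⟨i.1.val - (p + q), by have := i.2; have := i.1.2; omega⟩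
      invFun := fun j => match j with
        | Sum.inl a => ⟨⟨a.val, by have := a.2; omega⟩, Or.inl a.2⟩
        | Sum.inr b => ⟨⟨p + q + b.val, by have := b.2; omega⟩,
            Or.inr (by change p + q ≤ p + q + b.val; omega)⟩
      left_inv := by
        rintro ⟨⟨i, hi⟩, hi'⟩
        by_cases h : i < p
        · simp [h]
        · simp only [h, dif_neg, not_false_eq_true]
          simp only [h, false_or] at hi'
          apply Subtype.ext
          apply Fin.ext
          change p + q + (i - (p + q)) = i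
          omega
      right_inv := by
        rintro (⟨a, ha⟩ | ⟨b, hb⟩)
        · simp [ha]
        · have : ¬ (p + q + b < p) := by omega
          simp [this] }
  rw [Fintype.card_congr e]
  simp


lemma exists_inv (S : Matrix (Fin n) (Fin n) ℍ[ℝ]) (hSu : IsUnit S) :
    ∃ T : Matrix (Fin n) (Fin n) ℍ[ℝ], S * T = 1 ∧ T * S = 1 := by
  obtain ⟨u, rfl⟩ := hSu
  exact ⟨(u⁻¹ : (Matrix (Fin n) (Fin n) ℍ[ℝ])ˣ), u.mul_inv, u.inv_mul⟩

/-- Necessity: if `p, q, ν` are all positive, the extension property fails. -/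
lemma not_extension (H : Matrix (Fin n) (Fin n) ℍ[ℝ]) (p q ν : ℕ) (hin : HasInertia H p q ν)
    (hν : 0 < ν) (hp : 0 < p) (hq : 0 < q) : ¬ ExtensionProperty H (p + ν) := by
  classical
  obtain ⟨hn, S, hSu, hS⟩ := hin
  obtain ⟨T, hST, hTS⟩ := exists_inv S hSu
  -- the three distinguished indices
  let i1 : Fin n := ⟨0, by omega⟩
  let i2 : Fin n := ⟨p, by omega⟩
  let i3 : Fin n := ⟨p + q, by omega⟩
  have h12 : i1 ≠ i2 := by intro h; have := congrArg Fin.val h; simp [i1, i2] at this; omega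
  have h13 : i1 ≠ i3 := by intro h; have := congrArg Fin.val h; simp [i1, i3] at this; omega
  have h23 : i2 ≠ i3 := by intro h; have := congrArg Fin.val h; simp [i2, i3] at this; omega
  let e1 : Fin n → ℍ[ℝ] := Pi.single i1 1
  let e2 : Fin n → ℍ[ℝ] := Pi.single i2 1
  let e3 : Fin n → ℍ[ℝ] := Pi.single i3 1
  let A₀ : Matrix (Fin n) (Fin n) ℍ[ℝ] := Matrix.single i1 i3 1 + Matrix.single i2 i3 1
  have hA₀ : ∀ y : Fin n → ℍ[ℝ], A₀ *ᵥ y = Pi.single i1 (y i3) + Pi.single i2 (y i3) := by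
    intro y
    simp only [A₀, Matrix.add_mulVec, Matrix.single_mulVec, one_mul]
    rfl
  let A : Matrix (Fin n) (Fin n) ℍ[ℝ] := S * A₀ * T
  have hA : ∀ y : Fin n → ℍ[ℝ], A *ᵥ (S *ᵥ y) = S *ᵥ (A₀ *ᵥ y) := by
    intro y
    simp only [A, Matrix.mulVec_mulVec, Matrix.mul_assoc, hTS, Matrix.mul_one]
  have hsurj : ∀ x : Fin n → ℍ[ℝ], x = S *ᵥ (T *ᵥ x) := by
    intro x; rw [Matrix.mulVec_mulVec, hST, Matrix.one_mulVec]
  -- `A` is a plus-matrix
  have hplus : IsPlusMatrix H A := by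
    intro x _
    rw [hsurj x, hA, form_mulVec, hS, form_sign_re]
    generalize T *ᵥ x = y
    rw [hA₀ y]
    have hs : ∀ i : Fin n, (if i.val < p then (1 : ℝ) else if i.val < p + q then -1 else 0) *
        normSq ((Pi.single i1 (y i3) + Pi.single i2 (y i3) : Fin n → ℍ[ℝ]) i) =
        (if i = i1 then normSq (y i3) else 0) - (if i = i2 then normSq (y i3) else 0) := by
      intro i
      by_cases ha : i = i1
      · subst ha
        simp [h12, i1, hp]
      · by_cases hb : i = i2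
        · subst hb
          simp [h12.symm, i2, hq]
        · simp [ha, hb]
    rw [Finset.sum_congr rfl fun i _ => hs i, Finset.sum_sub_distrib]
    simp
  intro hext
  let M₀ : Submodule (ℍ[ℝ])ᵐᵒᵖ (Fin n → ℍ[ℝ]) := Submodule.span _ {S *ᵥ e1}
  have hM₀ : ∀ x ∈ M₀, ∃ c : ℍ[ℝ], x = S *ᵥ (Pi.single i1 c) := by
    intro x hx
    obtain ⟨c, rfl⟩ := Submodule.mem_span_singleton.1 hx
    refine ⟨c.unop, ?_⟩
    rw [← Matrix.mulVec_smul]
    congr 1
    funext i
    by_cases hi : i = i1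
    · subst hi; simp [e1]
    · simp [e1, hi]
  have hinv₀ : IsInvariant A M₀ := by
    intro x hx
    obtain ⟨c, rfl⟩ := hM₀ x hx
    rw [hA, hA₀]
    have : (Pi.single i1 c : Fin n → ℍ[ℝ]) i3 = 0 := by simp [h13.symm]
    rw [this]
    simp
  have hnn₀ : IsNonneg H M₀ := by
    intro x hx
    obtain ⟨c, rfl⟩ := hM₀ x hx
    rw [form_mulVec, hS, form_sign_re]
    apply Finset.sum_nonneg
    intro i _
    by_cases hi : i = i1
    · subst hi
      simp [i1, hp, normSq_nonneg]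
    · simp [hi]
  obtain ⟨M, hM₀M, hMinv, hMnn, hMdim⟩ := hext A hplus M₀ hinv₀ hnn₀
  -- `S e3` lies in `M`
  have he3 : S *ᵥ e3 ∈ M := by
    by_contra hnot
    have hle : M ≤ M ⊔ Submodule.span _ {S *ᵥ e3} := le_sup_left
    have hnn' : IsNonneg H (M ⊔ Submodule.span _ {S *ᵥ e3}) := by
      intro x hx
      obtain ⟨y, hy, z, hz, rfl⟩ := Submodule.mem_sup.1 hx
      obtain ⟨c, rfl⟩ := Submodule.mem_span_singleton.1 hz
      have h1 := hMnn y hy
      rw [hsurj y] at h1 ⊢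
      rw [← Matrix.mulVec_smul, ← Matrix.mulVec_add, form_mulVec, hS, form_sign_re]
      rw [form_mulVec, hS, form_sign_re] at h1
      refine h1.trans (le_of_eq ?_)
      refine Finset.sum_congr rfl fun i _ => ?_
      by_cases hi : i = i3
      · subst hi
        simp [i3]
      · simp [e3, hi]
    have hd := finrank_le H S T hST p q hS _ hnn'
    rw [card_nonneg p q ν hn] at hd
    have hlt : M < M ⊔ Submodule.span _ {S *ᵥ e3} := by
      refine lt_of_le_of_ne hle fun h => hnot ?_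
      rw [h]
      exact Submodule.mem_sup_right (Submodule.mem_span_singleton_self _)
    have := Submodule.finrank_lt_finrank_of_lt hlt
    omega
  have h4 : S *ᵥ (e1 + e2) ∈ M := by
    have := hMinv _ he3
    rw [hA, hA₀] at this
    simpa [e3, e1, e2] using this
  have h5 : S *ᵥ e2 ∈ M := by
    have h6 : S *ᵥ e1 ∈ M := hM₀M (Submodule.mem_span_singleton_self _)
    have := M.sub_mem h4 h6
    rwa [← Matrix.mulVec_sub, add_sub_cancel_left] at this
  have h7 := hMnn _ h5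
  rw [form_mulVec, hS, form_sign_re] at h7
  have h8 : ∑ i : Fin n, (if i.val < p then (1 : ℝ) else if i.val < p + q then -1 else 0) *
        normSq (e2 i) = -1 := by
    rw [Finset.sum_eq_single i2]
    · simp [e2, i2, hq]
    · intro i _ hi
      simp [e2, hi]
    · simp
  rw [h8] at h7
  norm_num at h7


/-- Sufficiency when `In₋(H) = 0`: the whole space is nonnegative. -/
lemma extension_of_q (H : Matrix (Fin n) (Fin n) ℍ[ℝ]) (p ν : ℕ) (hin : HasInertia H p 0 ν) :
    ExtensionProperty H (p + ν) := by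
  obtain ⟨hn, S, hSu, hS⟩ := hin
  obtain ⟨T, hST, hTS⟩ := exists_inv S hSu
  intro A _ M₀ _ _
  refine ⟨⊤, le_top, fun _ _ => trivial, ?_, ?_⟩
  · intro x _
    have hx : x = S *ᵥ (T *ᵥ x) := by rw [Matrix.mulVec_mulVec, hST, Matrix.one_mulVec]
    rw [hx, form_mulVec, hS, form_sign_re]
    apply Finset.sum_nonneg
    intro i _
    have hnn : 0 ≤ normSq ((T *ᵥ x) i) := normSq_nonneg
    by_cases hi : i.val < p
    · simp only [hi, if_true, one_mul]; exact hnn
    · simp only [hi, if_false, add_zero, zero_mul]; exact le_refl _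
  · rw [finrank_top, finrank_fun, Fintype.card_fin]
    omega

/-- the subspace of vectors supported in a given set of coordinates -/
noncomputable def suppSub (P : Fin n → Prop) :
    Submodule (ℍ[ℝ])ᵐᵒᵖ (Fin n → ℍ[ℝ]) where
  carrier := {y | ∀ i, ¬ P i → y i = 0}
  add_mem' := by
    intro a b ha hb i hi
    rw [Pi.add_apply, ha i hi, hb i hi, add_zero]
  zero_mem' := fun _ _ => rfl
  smul_mem' := by
    intro c a ha i hi
    rw [Pi.smul_apply, ha i hi, smul_zero]

/-- Sufficiency when `In₊(H) = 0`: the kernel of `H` is the largest nonnegative subspace. -/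
lemma extension_of_p (H : Matrix (Fin n) (Fin n) ℍ[ℝ]) (q ν : ℕ) (hin : HasInertia H 0 q ν) :
    ExtensionProperty H (0 + ν) := by
  classical
  obtain ⟨hn, S, hSu, hS⟩ := hin
  obtain ⟨T, hST, hTS⟩ := exists_inv S hSu
  have hsurj : ∀ x : Fin n → ℍ[ℝ], x = S *ᵥ (T *ᵥ x) := by
    intro x; rw [Matrix.mulVec_mulVec, hST, Matrix.one_mulVec]
  intro A hA M₀ _ hM₀
  let P : Fin n → Prop := fun i => i.val < 0 ∨ 0 + q ≤ i.val
  let M : Submodule (ℍ[ℝ])ᵐᵒᵖ (Fin n → ℍ[ℝ]) := (suppSub P).comap (mulMap T)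
  have hmem : ∀ x, x ∈ M ↔ 0 ≤ (form H x x).re := by
    intro x
    have h1 : (form H x x).re =
        ∑ i : Fin n, (if i.val < 0 then (1 : ℝ) else if i.val < 0 + q then -1 else 0) *
        normSq ((T *ᵥ x) i) := by
      conv_lhs => rw [hsurj x]
      rw [form_mulVec, hS, form_sign_re]
    have h2 : ∀ i ∈ (Finset.univ : Finset (Fin n)),
        (if i.val < 0 then (1 : ℝ) else if i.val < 0 + q then -1 else 0) *
        normSq ((T *ᵥ x) i) ≤ 0 := by
      intro i _
      have hnn : 0 ≤ normSq ((T *ᵥ x) i) := normSq_nonneg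
      rw [if_neg (by omega)]
      by_cases hi : i.val < 0 + q
      · rw [if_pos hi]; linarith
      · rw [if_neg hi, zero_mul]
    constructor
    · intro hx
      have hx' : ∀ i, ¬ P i → (T *ᵥ x) i = 0 := hx
      rw [h1]
      apply Finset.sum_nonneg
      intro i _
      rw [if_neg (by omega)]
      by_cases hi : i.val < 0 + q
      · rw [hx' i (by simp only [P]; omega)]; simp
      · rw [if_neg hi, zero_mul]
    · intro hx
      rw [h1] at hx
      have h3 := (Finset.sum_eq_zero_iff_of_nonpos h2).1 (le_antisymm (Finset.sum_nonpos h2) hx)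
      change ∀ i, ¬ P i → (T *ᵥ x) i = 0
      intro i hi
      have h4 := h3 i (Finset.mem_univ i)
      simp only [P] at hi
      rw [if_neg (by omega), if_pos (by omega)] at h4
      have h5 : normSq ((T *ᵥ x) i) = 0 := by linarith
      simpa using h5
  refine ⟨M, fun x hx => (hmem x).2 (hM₀ x hx), fun x hx => (hmem _).2 (hA x ((hmem x).1 hx)),
    fun x hx => (hmem x).1 hx, ?_⟩
  rw [← card_nonneg 0 q ν hn, ← finrank_fun]
  apply LinearEquiv.finrank_eq
  refine LinearEquiv.ofBijective ((coordMap P) ∘ₗ (mulMap T) ∘ₗ M.subtype) ⟨?_, ?_⟩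
  · rw [← LinearMap.ker_eq_bot, LinearMap.ker_eq_bot']
    rintro ⟨x, hx⟩ hfx
    have h0 : ∀ i : Fin n, P i → (T *ᵥ x) i = 0 := fun i hi => congrFun hfx ⟨i, hi⟩
    have hx' : ∀ i, ¬ P i → (T *ᵥ x) i = 0 := hx
    have h4 : T *ᵥ x = 0 := by
      ext1 i
      by_cases hi : P i
      · exact h0 i hi
      · exact hx' i hi
    apply Subtype.ext
    change x = 0
    rw [hsurj x, h4, Matrix.mulVec_zero]
  · intro z
    let y : Fin n → ℍ[ℝ] := fun i => if h : P i then z ⟨i, h⟩ else 0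
    have hy : T *ᵥ (S *ᵥ y) = y := by rw [Matrix.mulVec_mulVec, hTS, Matrix.one_mulVec]
    have hyM : S *ᵥ y ∈ M := by
      change ∀ i, ¬ P i → (T *ᵥ (S *ᵥ y)) i = 0
      intro i hi
      rw [hy]
      simp only [y, dif_neg hi]
    refine ⟨⟨S *ᵥ y, hyM⟩, ?_⟩
    funext i
    change (T *ᵥ (S *ᵥ y)) i = z i
    rw [hy]
    simp only [y, dif_pos i.2]

/-- A matrix with `In₀(H) = 0` is invertible. -/
lemma isUnit_of_inertia (H : Matrix (Fin n) (Fin n) ℍ[ℝ]) (p q : ℕ) (hin : HasInertia H p q 0) :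
    IsUnit H := by
  obtain ⟨hn, S, hSu, hS⟩ := hin
  obtain ⟨T, hST, hTS⟩ := exists_inv S hSu
  have hD : signMatrix n p q * signMatrix n p q = 1 := by
    unfold signMatrix
    rw [Matrix.diagonal_mul_diagonal, ← Matrix.diagonal_one]
    congr 1
    funext i
    have := i.2
    by_cases h1 : i.val < p
    · simp [h1]
    · have h2 : i.val < p + q := by omega
      simp [h1, h2]
  have hDu : IsUnit (signMatrix n p q) := ⟨⟨_, _, hD, hD⟩, rfl⟩
  have hTu : IsUnit T := ⟨⟨T, S, hTS, hST⟩, rfl⟩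
  have hTH : IsUnit Tᴴ := by
    refine ⟨⟨Tᴴ, Sᴴ, ?_, ?_⟩, rfl⟩
    · rw [← Matrix.conjTranspose_mul, hST, Matrix.conjTranspose_one]
    · rw [← Matrix.conjTranspose_mul, hTS, Matrix.conjTranspose_one]
  have hH : H = Tᴴ * signMatrix n p q * T := by
    rw [← hS]
    have h1 : Tᴴ * Sᴴ = 1 := by rw [← Matrix.conjTranspose_mul, hST, Matrix.conjTranspose_one]
    calc H = (Tᴴ * Sᴴ) * H * (S * T) := by rw [h1, hST, Matrix.one_mul, Matrix.mul_one]
      _ = Tᴴ * (Sᴴ * H * S) * T := by simp only [Matrix.mul_assoc]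
  rw [hH]
  exact (hTH.mul hDu).mul hTu

/-- **Main theorem.**  Let `H` be a singular hermitian quaternion matrix, with
`In₊(H) = p`, `In₋(H) = q`, `In₀(H) = ν`.  Then every `A`-invariant `H`-nonnegative subspace of
every `H`-plus-matrix `A` is contained in an `A`-invariant `H`-nonnegative subspace of dimension
`In₊(H) + In₀(H)` if and only if `H` is semidefinite (`p = 0` or `q = 0`).  In particular the
question has a negative answer for every singular indefinite `H`. -/
theorem result (n : ℕ) (H : Matrix (Fin n) (Fin n) ℍ[ℝ]) (_hH : H.IsHermitian)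
    (hsing : ¬ IsUnit H) (p q ν : ℕ) (hin : HasInertia H p q ν) :
    ExtensionProperty H (p + ν) ↔ (p = 0 ∨ q = 0) := by
  have hν : 0 < ν := by
    rcases Nat.eq_zero_or_pos ν with h | h
    · subst h
      exact absurd (isUnit_of_inertia H p q hin) hsing
    · exact h
  constructor
  · intro h
    by_contra hcon
    push Not at hcon
    exact not_extension H p q ν hin hν (Nat.pos_of_ne_zero hcon.1) (Nat.pos_of_ne_zero hcon.2) h
  · rintro (rfl | rfl)
    · exact extension_of_p H q ν hin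
    · exact extension_of_q H p ν hin

end Pool.Agent.Results.MP_7dcdb2_al.SemidefiniteCriterion
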